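import Pool.Agent.Lib.MP_e28e82_lc.Item.Defs
import Pool.Agent.Lib.MP_e28e82_lc.Item.Cake

namespace Pool.Agent.Lib.MP_e28e82_lc.Old.LinearCuts

open Pool.Agent.Lib.MP_e28e82_lc

/-- A truthful, approximately proportional mechanism needs a number of intervals that is linear
in the number of breakpoints of the reports. -/
theorem result (n : ℕ) (hn : 2 ≤ n) (α : ℝ) (hα : 0 < α) : ∃ C : ℕ, ∀ M : Mechanism n,
    M.Truthful →
    (∀ (f : Fin n → Density) (i : Fin n),
      α / n * (f i).value (Set.Icc 0 1) ≤ (f i).value (M.alloc f i)) →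
    ∀ K : ℕ, ∃ f : Fin n → Density, (∀ j, (f j).BreaksLe (C * (K + 1))) ∧
      ∃ i, ¬ IntervalsLe (M.alloc f i) K :=
  Item.cake n hn α hα

end Pool.Agent.Lib.MP_e28e82_lc.Old.LinearCuts
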