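import Pool.Agent.Lib.MP_e28e82_lc.Guarantee

namespace Pool.Agent.Lib.MP_e28e82_lc.Old.ScaleMenu

open Pool.Agent.Lib.MP_e28e82_lc MeasureTheory Set

theorem result (n : ℕ) (hn : 2 ≤ n) :
    ∃ M : Mechanism n, M.Truthful ∧ M.ObliviousOn (fun _ => True) ∧
      (∀ (f : Fin n → Density) (i : Fin n), IsFiniteUnionOfIntervals (M.alloc f i)) ∧
      (∀ (f : Fin n → Density) (i : Fin n) (v : ℝ),
        v * (volume {x ∈ Icc (0 : ℝ) 1 | v ≤ (f i).val x}).toReal /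
          ((2 * ((n : ℝ) - 1) ^ 2 + 1) * (2 * (n : ℝ) - 1) ^ n) ≤ (f i).value (M.alloc f i)) := by
  obtain ⟨M, h1, h2, h3, _, h5, _⟩ := exists_mechanism n hn
  exact ⟨M, h1, h2, h3, h5⟩

end Pool.Agent.Lib.MP_e28e82_lc.Old.ScaleMenu
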