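import Pool.Agent.Lib.MP_e28e82_lc.EntireAgents

namespace Pool.Agent.Lib.MP_e28e82_lc.Old.WasteNecessary

open Pool.Agent.Lib.MP_e28e82_lc

theorem result (n : ℕ) (i k : Fin n) (hik : i ≠ k) (M : Mechanism n) (hT : M.Truthful)
    (α w : ℝ)
    (hα : ∀ (f : Fin n → Density) (j : Fin n),
      α / n * (f j).value (Set.Icc 0 1) ≤ (f j).value (M.alloc f j))
    (hw : ∀ (f : Fin n → Density) (j : Fin n), j = i ∨ j = k →
      (f j).value {x ∈ Set.Icc (0 : ℝ) 1 | x ∉ M.alloc f i ∧ x ∉ M.alloc f k ∧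
        ∀ l, x ∈ M.alloc f l → (f l).val x = 0} ≤ w * (f j).value (Set.Icc 0 1)) :
    α ^ 5 ≤ 35 / 2 * n ^ 5 * w :=
  waste_bound n i k hik M hT α w hα hw

end Pool.Agent.Lib.MP_e28e82_lc.Old.WasteNecessary
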